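import Pool.Agent.Q80.KT.Stm

set_option autoImplicit false

/-! Jobs KT-ISO and KT-KT0. -/

namespace Pool.Agent.Q119.KT

open Finset
open scoped Classical
open Pool.Agent.Q80.KT

/-- Lifting of walks from a ball. -/
theorem lift {k : ℕ} {F : SimpleGraph (Fin k)} {V : Type} {G : SimpleGraph V} {v : V} {r : ℕ}
    {φ : Fin k → V} (h : ∀ w, (∃ a, φ a = w) ↔ (G.Reachable v w ∧ G.dist v w ≤ r))
    (hadj : ∀ a b, F.Adj a b ↔ G.Adj (φ a) (φ b)) :
    ∀ {x w : V} (p : G.Walk x w) (a : Fin k), φ a = x → G.dist v x + p.length ≤ r →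
      ∃ b, φ b = w ∧ ∃ q : F.Walk a b, q.length = p.length := by
  intro x w p
  induction p with
  | nil => exact fun a ha _ => ⟨a, ha, SimpleGraph.Walk.nil, rfl⟩
  | @cons x y w hxy p ih =>
    intro a ha hr
    have hx := (h x).1 ⟨a, ha⟩
    have hy : G.Reachable v y := hx.1.trans hxy.reachable
    have hd : G.dist v y ≤ G.dist v x + 1 := by
      obtain ⟨q, hq⟩ := hx.1.exists_walk_length_eq_dist
      have := SimpleGraph.dist_le (q.append (SimpleGraph.Walk.cons hxy SimpleGraph.Walk.nil))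
      rw [SimpleGraph.Walk.length_append, SimpleGraph.Walk.length_cons, SimpleGraph.Walk.length_nil,
        hq] at this
      omega
    rw [SimpleGraph.Walk.length_cons] at hr
    obtain ⟨c, hc⟩ := (h y).2 ⟨hy, by omega⟩
    obtain ⟨b, hb, q, hq⟩ := ih c hc (by omega)
    refine ⟨b, hb, SimpleGraph.Walk.cons ((hadj a c).2 (by rw [ha, hc]; exact hxy)) q, ?_⟩
    rw [SimpleGraph.Walk.length_cons, SimpleGraph.Walk.length_cons, hq]

/-- The isomorphism preserves the distances from the root. -/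
theorem iso_dist {k : ℕ} {F : SimpleGraph (Fin k)} {u : Fin k} {V : Type} {G : SimpleGraph V} {v : V}
    {r : ℕ} {φ : Fin k → V} (hinj : Function.Injective φ) (hu : φ u = v)
    (h : ∀ w, (∃ a, φ a = w) ↔ (G.Reachable v w ∧ G.dist v w ≤ r))
    (hadj : ∀ a b, F.Adj a b ↔ G.Adj (φ a) (φ b)) (a : Fin k) :
    F.Reachable u a ∧ F.dist u a = G.dist v (φ a) ∧ F.dist u a ≤ r := by
  have ha := (h (φ a)).1 ⟨a, rfl⟩
  obtain ⟨p, hp⟩ := ha.1.exists_walk_length_eq_dist
  obtain ⟨b, hb, q, hq⟩ := lift h hadj p u hu (by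
    rw [SimpleGraph.dist_self, zero_add, hp]
    exact ha.2)
  have hba : b = a := hinj hb
  subst hba
  have h1 : F.Reachable u b := q.reachable
  have h2 : F.dist u b ≤ G.dist v (φ b) := by
    have := SimpleGraph.dist_le q
    rw [hq, hp] at this
    exact this
  have h3 : G.dist v (φ b) ≤ F.dist u b := by
    obtain ⟨q', hq'⟩ := h1.exists_walk_length_eq_dist
    let f : F →g G := ⟨φ, fun {a b} hab => (hadj a b).1 hab⟩
    have := SimpleGraph.dist_le (q'.map f)
    rw [SimpleGraph.Walk.length_map, hq'] at this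
    rw [← hu]
    exact this
  exact ⟨h1, le_antisymm h2 h3, h2.trans ha.2⟩

theorem iso : S_ISO := by
  intro n k F u r G v ⟨φ, hinj, hu, h, hadj⟩
  have key := iso_dist hinj hu h hadj
  have : Nonempty (Fin k) := ⟨u⟩
  refine ⟨⟨fun a b => (key a).1.symm.trans (key b).1⟩, fun a => (key a).2.2, ?_⟩
  symm
  apply Finset.card_bij (fun a _ => φ a)
  · intro a ha
    rw [Finset.mem_filter] at ha
    unfold sph
    rw [Finset.mem_filter]
    exact ⟨Finset.mem_univ _, ((h (φ a)).1 ⟨a, rfl⟩).1, by rw [← (key a).2.1]; exact ha.2⟩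
  · intro a _ b _ hab
    exact hinj hab
  · intro w hw
    unfold sph at hw
    rw [Finset.mem_filter] at hw
    obtain ⟨a, ha⟩ := (h w).2 ⟨hw.2.1, hw.2.2.le⟩
    refine ⟨a, ?_, ha⟩
    rw [Finset.mem_filter]
    refine ⟨Finset.mem_univ _, ?_⟩
    rw [(key a).2.1, ha]
    exact hw.2.2

/-- The Kesten tree has no cycle. -/
theorem kTree_acyclic (X : List ℕ → ℕ) : (kTree X).IsAcyclic := by
  intro v c hc
  obtain ⟨x, hx, hmax⟩ : ∃ x ∈ c.support, ∀ y ∈ c.support, y.length ≤ x.length := by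
    obtain ⟨x, hx, hm⟩ := c.support.toFinset.exists_max_image (fun y => y.length)
      ⟨v, by simp⟩
    exact ⟨x, by simpa using hx, fun y hy => hm y (by simpa using hy)⟩
  have hc' := hc.rotate hx
  have hmem : ∀ y, y ∈ (c.rotate x hx).support → y.length ≤ x.length := by
    intro y hy
    apply hmax
    by_cases hyx : y = x
    · rw [hyx]; exact hx
    · have h1 := hy
      rw [SimpleGraph.Walk.mem_support_iff] at h1
      have h2 := h1.resolve_left hyx
      have h3 := (c.support_rotate x hx).mem_iff.1 h2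
      exact List.mem_of_mem_tail h3
  have tl : ∀ y, (kTree X).Adj x y → y.length ≤ x.length → y = x.tail := by
    intro y hy hl
    rcases hy.2.2 with ⟨i, hi⟩ | ⟨i, hi⟩
    · rw [hi]; rfl
    · rw [hi, List.length_cons] at hl
      omega
  apply hc'.snd_ne_penultimate
  rw [tl _ ((c.rotate x hx).adj_snd hc'.not_nil) (hmem _ (SimpleGraph.Walk.getVert_mem_support _ _)),
    tl _ ((c.rotate x hx).adj_penultimate hc'.not_nil).symm
      (hmem _ (SimpleGraph.Walk.getVert_mem_support _ _))]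

theorem kt0 : S_KT0 := by
  intro k F u r X ⟨φ, hinj, hu, h, hadj⟩
  have key := iso_dist hinj hu h hadj
  have : Nonempty (Fin k) := ⟨u⟩
  refine ⟨⟨⟨fun a b => (key a).1.symm.trans (key b).1⟩, ?_⟩, fun a => (key a).2.2⟩
  let f : F →g kTree X := ⟨φ, fun {a b} hab => (hadj a b).1 hab⟩
  exact (kTree_acyclic X).comap f hinj

end Pool.Agent.Q119.KT
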