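import Pool.Agent.Q80.KT.Stm

set_option autoImplicit false

/-! Job KT-KPR. -/

namespace Pool.Agent.Q119.KT

open Finset MeasureTheory
open scoped Classical ENNReal NNReal
open Pool.Agent.Q80.KT

theorem poisson_shift (z : Prop) [Decidable z] (c : ℕ) :
    ProbabilityTheory.poissonMeasure 1 {x : ℕ | x + (if z then 1 else 0) = c} =
      ENNReal.ofReal (Real.exp (-1) / (c.factorial : ℝ) * if z then (c : ℝ) else 1) := by
  by_cases hz : z
  · simp only [hz, if_true]
    cases c with
    | zero => simp
    | succ m =>
      have : {x : ℕ | x + 1 = m + 1} = {m} := by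
        ext x
        simp
      rw [this, ProbabilityTheory.poissonMeasure_singleton]
      congr 1
      have h1 : ((m.factorial : ℕ) : ℝ) ≠ 0 := by exact_mod_cast m.factorial_ne_zero
      rw [Nat.factorial_succ]
      push_cast
      have h2 : (m : ℝ) + 1 ≠ 0 := by positivity
      field_simp
      simp
  · simp only [hz, if_false]
    have : {x : ℕ | x + 0 = c} = {c} := by
      ext x
      simp
    rw [this, ProbabilityTheory.poissonMeasure_singleton]
    congr 1
    simp

theorem kpr : S_KPR := by
  intro k F u r φ hinj
  set S := univ.filter (fun a => F.dist u a < r) with hS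
  set t : List ℕ → Set ℕ := fun w => {x | ∀ a, φ a = w →
    x + (if (∀ i ∈ φ a, i = 0) then 1 else 0) = nch F u a} with ht
  have h1 : {X : List ℕ → ℕ | ∀ a, F.dist u a < r → kids X (φ a) = nch F u a} =
      Set.pi ((S.image φ : Finset (List ℕ)) : Set (List ℕ)) t := by
    ext X
    simp only [Set.mem_ofPred_eq, Set.mem_pi, Finset.coe_image, Set.mem_image, Finset.mem_coe, ht]
    constructor
    · rintro h w ⟨b, hb, hbw⟩ a ha
      have hab : a = b := hinj (ha.trans hbw.symm)
      subst hab
      have := h a (by rw [hS, Finset.mem_filter] at hb; exact hb.2)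
      unfold kids at this
      rw [ha] at this ⊢
      exact this
    · intro h a ha
      have := h (φ a) ⟨a, by rw [hS, Finset.mem_filter]; exact ⟨Finset.mem_univ _, ha⟩, rfl⟩ a rfl
      unfold kids
      exact this
  have h2 : ∀ a, t (φ a) = {x : ℕ | x + (if (∀ i ∈ φ a, i = 0) then 1 else 0) = nch F u a} := by
    intro a
    ext x
    simp only [ht, Set.mem_ofPred_eq]
    constructor
    · intro h
      exact h a rfl
    · intro h b hb
      rw [hinj hb]
      exact h
  rw [h1]
  unfold kLaw
  rw [Measure.infinitePi_pi _ (fun _ _ => MeasurableSet.of_discrete),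
    Finset.prod_image (fun a _ b _ hab => hinj hab), ENNReal.toReal_prod]
  refine Finset.prod_congr rfl fun a _ => ?_
  rw [h2, poisson_shift, ENNReal.toReal_ofReal]
  apply mul_nonneg (by positivity)
  split_ifs <;> positivity

end Pool.Agent.Q119.KT
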